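import Pool.Agent.W398.SG.StmC

/-!
# Project SG, part C: Kaloujnine coordinates on `P/H`
-/

set_option autoImplicit false

namespace Pool.Agent.W29.SG.Coord

open Pool.Agent.W37.SG Pool.Agent.W398.SG.C

/-- a homomorphism from the group `K` onto `ZMod p` with kernel `H` (as a function on `P`) -/
theorem exists_lam (p : ℕ) [Fact p.Prime] (P : Type) [Group P] [Finite P] (hP : IsPGroup p P)
    (H K : Subgroup P) (hHK : H ≤ K) (hrel : H.relIndex K = p) :
    ∃ lam : P → ZMod p, (∀ a ∈ K, ∀ b ∈ K, lam (a * b) = lam a + lam b) ∧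
      (∀ a ∈ K, lam a = 0 → a ∈ H) ∧ (∀ a ∈ H, lam a = 0) := by
  classical
  have hp : p.Prime := Fact.out
  have hidx : (H.subgroupOf K).index = p := hrel
  have hcard : (Nat.card K).minFac = p := by
    have hK : IsPGroup p K := hP.to_subgroup K
    obtain ⟨m, hm⟩ := (IsPGroup.iff_card).1 hK
    have hm0 : m ≠ 0 := by
      rintro rfl
      have h1 : (H.subgroupOf K).index ∣ Nat.card K := Subgroup.index_dvd_card _
      rw [hidx, hm, pow_zero, Nat.dvd_one] at h1
      exact hp.one_lt.ne' h1
    rw [hm, hp.pow_minFac hm0]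
  have hnorm : (H.subgroupOf K).Normal :=
    Subgroup.normal_of_index_eq_minFac_card (by rw [hidx, hcard])
  have hcQ : Nat.card (K ⧸ H.subgroupOf K) = p := hidx
  have hcZ : Nat.card (Multiplicative (ZMod p)) = p := by
    rw [Nat.card_congr Multiplicative.toAdd, Nat.card_zmod]
  let φ : (K ⧸ H.subgroupOf K) ≃* Multiplicative (ZMod p) := mulEquivOfPrimeCardEq hcQ hcZ
  let ψ : K → ZMod p := fun a => Multiplicative.toAdd (φ (QuotientGroup.mk a))
  have hψ : ∀ a b : K, ψ (a * b) = ψ a + ψ b := by
    intro a b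
    simp only [ψ]
    rw [QuotientGroup.mk_mul, map_mul, toAdd_mul]
  have hψ0 : ∀ a : K, ψ a = 0 ↔ (a : P) ∈ H := by
    intro a
    simp only [ψ]
    rw [toAdd_eq_zero, EmbeddingLike.map_eq_one_iff, QuotientGroup.eq_one_iff,
      Subgroup.mem_subgroupOf]
  refine ⟨fun a => if h : a ∈ K then ψ ⟨a, h⟩ else 0, ?_, ?_, ?_⟩
  · intro a ha b hb
    simp only [dif_pos ha, dif_pos hb, dif_pos (K.mul_mem ha hb)]
    exact hψ ⟨a, ha⟩ ⟨b, hb⟩
  · intro a ha h
    simp only [dif_pos ha] at h
    exact (hψ0 ⟨a, ha⟩).1 h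
  · intro a ha
    simp only [dif_pos (hHK ha)]
    exact (hψ0 ⟨a, hHK ha⟩).2 ha

theorem step (p : ℕ) [Fact p.Prime] (P : Type) [Group P] [Finite P] (hP : IsPGroup p P) (k : ℕ) :
    ∀ H : Subgroup P, H.index = p ^ k → ∃ e : P ⧸ H ≃ (Fin k → ZMod p), IsCoord p k H e := by
  classical
  have hp : p.Prime := Fact.out
  induction k with
  | zero =>
    intro H hH
    have hc : Nat.card (P ⧸ H) = Nat.card (Fin 0 → ZMod p) := by
      have h1 : Nat.card (P ⧸ H) = 1 := by rw [pow_zero] at hH; exact hH
      rw [h1]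
      simp
    obtain ⟨e⟩ := Finite.card_eq.1 hc
    exact ⟨e, fun _ i => i.elim0⟩
  | succ k ih =>
    intro H hH
    obtain ⟨N, hN⟩ := (IsPGroup.iff_card).1 hP
    -- the order of `H`
    have hmul : Nat.card H * H.index = Nat.card P := H.card_mul_index
    have hHp : IsPGroup p H := hP.to_subgroup H
    obtain ⟨m, hm⟩ := (IsPGroup.iff_card).1 hHp
    have hdvd : p ^ (m + 1) ∣ Nat.card P := by
      rw [← hmul, hm, hH, ← pow_add]
      exact pow_dvd_pow p (by omega)
    obtain ⟨K, hKc, hHK⟩ := Sylow.exists_subgroup_card_pow_succ hdvd hm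
    have hKi : K.index = p ^ k := by
      have h1 : Nat.card K * K.index = Nat.card P := K.card_mul_index
      rw [hKc, ← hmul, hm, hH] at h1
      have h2 : p ^ (m + 1) * K.index = p ^ (m + 1) * p ^ k := by
        rw [h1, ← pow_add, ← pow_add]
        congr 1
        omega
      exact Nat.eq_of_mul_eq_mul_left (pow_pos hp.pos _) h2
    have hrel : H.relIndex K = p := by
      have h1 := Subgroup.relIndex_mul_index hHK
      rw [hKi, hH, pow_succ, mul_comm] at h1
      exact Nat.eq_of_mul_eq_mul_left (pow_pos hp.pos _) h1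
    obtain ⟨lam, hl1, hl2, hl3⟩ := exists_lam p P hP H K hHK hrel
    obtain ⟨e', he'⟩ := ih K hKi
    -- the projection
    let pr : P ⧸ H → P ⧸ K := Quotient.map' id fun a b hab => by
      rw [QuotientGroup.leftRel_apply] at hab ⊢
      exact hHK hab
    have hpr : ∀ g : P, pr (QuotientGroup.mk g) = QuotientGroup.mk g := fun g => rfl
    have hprs : ∀ (γ : P) (y : P ⧸ H), pr (γ • y) = γ • pr y := by
      intro γ y
      induction y using QuotientGroup.induction_on with
      | H g => rfl
    have htK : ∀ (b : P ⧸ K) (g : P), (QuotientGroup.mk g : P ⧸ K) = b → b.out⁻¹ * g ∈ K := by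
      intro b g hb
      rw [← QuotientGroup.eq, QuotientGroup.out_eq', hb]
    let last : P ⧸ H → ZMod p := fun y => lam ((pr y).out⁻¹ * y.out)
    have hlast : ∀ g : P, last (QuotientGroup.mk g) =
        lam (((QuotientGroup.mk g : P ⧸ K)).out⁻¹ * g) := by
      intro g
      simp only [last, hpr]
      have h1 : g⁻¹ * (QuotientGroup.mk g : P ⧸ H).out ∈ H := by
        rw [← QuotientGroup.eq, QuotientGroup.out_eq']
      have h2 : (QuotientGroup.mk g : P ⧸ K).out⁻¹ * g ∈ K := htK _ g rfl
      have h3 : (QuotientGroup.mk g : P ⧸ K).out⁻¹ * (QuotientGroup.mk g : P ⧸ H).out =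
          ((QuotientGroup.mk g : P ⧸ K).out⁻¹ * g) * (g⁻¹ * (QuotientGroup.mk g : P ⧸ H).out) := by
        group
      rw [h3, hl1 _ h2 _ (hHK h1), hl3 _ h1, add_zero]
    let f : P ⧸ H → (Fin (k + 1) → ZMod p) := fun y => Fin.snoc (e' (pr y)) (last y)
    have hfc : ∀ (y : P ⧸ H) (j : Fin k), f y j.castSucc = e' (pr y) j := by
      intro y j
      simp only [f, Fin.snoc_castSucc]
    have hfl : ∀ y : P ⧸ H, f y (Fin.last k) = last y := by
      intro y
      simp only [f, Fin.snoc_last]
    have hinj : Function.Injective f := by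
      intro y1 y2 h
      induction y1 using QuotientGroup.induction_on with
      | H g1 =>
        induction y2 using QuotientGroup.induction_on with
        | H g2 =>
          have h1 : pr (QuotientGroup.mk g1) = pr (QuotientGroup.mk g2) := by
            apply e'.injective
            funext j
            rw [← hfc, ← hfc, h]
          have h2 : last (QuotientGroup.mk g1) = last (QuotientGroup.mk g2) := by
            rw [← hfl, ← hfl, h]
          rw [hpr, hpr] at h1
          rw [hlast, hlast, h1] at h2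
          set b : P ⧸ K := QuotientGroup.mk g2 with hb
          have k1 : b.out⁻¹ * g1 ∈ K := htK b g1 h1
          have k2 : b.out⁻¹ * g2 ∈ K := htK b g2 rfl
          have k3 : g1⁻¹ * g2 ∈ K := QuotientGroup.eq.1 h1
          have k4 : b.out⁻¹ * g2 = (b.out⁻¹ * g1) * (g1⁻¹ * g2) := by group
          rw [k4, hl1 _ k1 _ k3] at h2
          have k5 : lam (g1⁻¹ * g2) = 0 := by
            have := congrArg (fun x => x - lam (b.out⁻¹ * g1)) h2
            simpa using this.symm
          exact QuotientGroup.eq.2 (hl2 _ k3 k5)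
    have hcard : Nat.card (P ⧸ H) = Nat.card (Fin (k + 1) → ZMod p) := by
      have h1 : Nat.card (P ⧸ H) = p ^ (k + 1) := hH
      rw [h1, Nat.card_fun, Nat.card_zmod, Nat.card_fin]
    have hbij : Function.Bijective f := (Nat.bijective_iff_injective_and_card f).2 ⟨hinj, hcard⟩
    refine ⟨Equiv.ofBijective f hbij, ?_⟩
    intro γ i x y hxy
    simp only [Equiv.ofBijective_apply] at hxy ⊢
    induction i using Fin.lastCases with
    | cast j =>
      rw [hfc, hfc, hfc, hfc, hprs, hprs]
      apply he' γ j (pr x) (pr y)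
      intro j' hj'
      have := hxy j'.castSucc (by simpa using hj')
      rwa [hfc, hfc] at this
    | last =>
      have hb : pr x = pr y := by
        apply e'.injective
        funext j
        have := hxy j.castSucc (Fin.castSucc_lt_last j)
        rwa [hfc, hfc] at this
      have key : ∀ z : P ⧸ H, last (γ • z) - last z =
          lam ((γ • pr z).out⁻¹ * (γ * (pr z).out)) := by
        intro z
        induction z using QuotientGroup.induction_on with
        | H g =>
          have e1 : γ • (QuotientGroup.mk g : P ⧸ H) = QuotientGroup.mk (γ * g) := rfl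
          have e2 : γ • pr (QuotientGroup.mk g) = (QuotientGroup.mk (γ * g) : P ⧸ K) := rfl
          rw [e1, e2, hlast, hlast, hpr]
          set b : P ⧸ K := QuotientGroup.mk g with hb'
          set c : P ⧸ K := QuotientGroup.mk (γ * g) with hc'
          have k1 : b.out⁻¹ * g ∈ K := htK b g rfl
          have k2 : c.out⁻¹ * (γ * b.out) ∈ K := by
            apply htK
            have : (QuotientGroup.mk (γ * b.out) : P ⧸ K) = γ • (QuotientGroup.mk b.out : P ⧸ K) := rfl
            rw [this, QuotientGroup.out_eq', hb', hc']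
            rfl
          have k3 : c.out⁻¹ * (γ * g) = (c.out⁻¹ * (γ * b.out)) * (b.out⁻¹ * g) := by group
          rw [k3, hl1 _ k2 _ k1]
          ring
      rw [hfl, hfl, hfl, hfl, key x, key y, hb]

theorem main : S_COORD := by
  intro p _ P _ _ hP H
  obtain ⟨k, hk⟩ := hP.index H
  exact ⟨k, hk, step p P hP k H hk⟩

end Pool.Agent.W29.SG.Coord
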